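import Pool.Agent.H699.MW.Gr

/-!
MW, S_RHO (helper670): the influence is at most the probability of being between the messages.
-/

set_option autoImplicit false

open MeasureTheory Finset
open scoped Classical

namespace Pool.Agent.H670.MW.RHO

open Pool.Agent.H699.MW

theorem ae_good {ι : Type} [Fintype ι] {μ : Measure ℝ} {a b : ℝ} (h : Good μ a b) :
    ∀ᵐ ω ∂(Measure.pi fun _ : ι => μ), ∀ e, 0 ≤ ω e ∧ ω e ≤ b := by
  have : IsProbabilityMeasure μ := ⟨h.prob⟩
  rw [ae_all_iff]
  intro e
  have h1 : ∀ᵐ x ∂μ, 0 ≤ x ∧ x ≤ b := by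
    have h2 : ∀ᵐ x ∂μ, x ∈ Set.Icc a b := by
      rw [ae_iff]
      exact h.supp
    filter_upwards [h2] with x hx
    exact ⟨h.nn.trans hx.1, hx.2⟩
  exact (Measure.quasiMeasurePreserving_eval (μ := fun _ : ι => μ) e).tendsto_ae.eventually h1

theorem chi_diff_le {V : Type} [Fintype V] (G : SimpleGraph V) (ω : Sym2 V → ℝ) (S T : Finset V)
    (e : Sym2 V) : |chi G ω S e - chi G ω T e| ≤ 1 := by
  unfold chi
  split_ifs <;> norm_num

theorem chi_eq {V : Type} [Fintype V] (G : SimpleGraph V) (ω : Sym2 V → ℝ) (S T : Finset V)
    (e : Sym2 V) (h : InMWM G ω S e ↔ InMWM G ω T e) : |chi G ω S e - chi G ω T e| = 0 := by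
  unfold chi
  by_cases h1 : InMWM G ω S e
  · rw [if_pos h1, if_pos (h.1 h1)]
    norm_num
  · rw [if_neg h1, if_neg (fun h2 => h1 (h.2 h2))]
    norm_num

theorem t_RHO : S_BND → S_THR → S_FAR → S_MSM → S_RHO := by
  intro hBND hTHR hFAR hMSM V _ G μ a b hG hconn u v r huv
  have : IsProbabilityMeasure μ := ⟨hG.prob⟩
  have hb0 : 0 ≤ b := hG.nn.trans hG.lt.le
  have huv' : u ≠ v := huv.ne
  set G' := G.deleteEdges {s(u, v)} with hG'
  set B := ball G u v r with hB
  have huB : u ∈ B := by
    rw [hB, ball, mem_filter]
    exact ⟨mem_univ _, Or.inl (by rw [SimpleGraph.dist_self]; exact Nat.zero_le _)⟩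
  have hvB : v ∈ B := by
    rw [hB, ball, mem_filter]
    exact ⟨mem_univ _, Or.inr (by rw [SimpleGraph.dist_self]; exact Nat.zero_le _)⟩
  have hvB' : v ∈ B.erase u := mem_erase.2 ⟨huv'.symm, hvB⟩
  set K : Set (Sym2 V → ℝ) := {ω | msg G' b r B u false ω + msg G' b r (B.erase u) v false ω ≤
    ω s(u, v) ∧ ω s(u, v) ≤ msg G' b r B u true ω + msg G' b r (B.erase u) v true ω} with hK
  have hKm : MeasurableSet K := by
    apply MeasurableSet.inter
    · exact measurableSet_le ((hMSM V G' b r B u false).add (hMSM V G' b r (B.erase u) v false))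
        (measurable_pi_apply _)
    · exact measurableSet_le (measurable_pi_apply _)
        ((hMSM V G' b r B u true).add (hMSM V G' b r (B.erase u) v true))
  unfold rho
  rw [← integral_indicator_one hKm]
  apply integral_mono_of_nonneg
  · refine Filter.Eventually.of_forall fun ω => ?_
    exact le_trans (abs_nonneg _) (Finset.le_sup'
      (fun A => |chi G ω (ball G u v r) s(u, v) - chi G ω (ball G u v r \ A) s(u, v)|)
      (empty_mem_powerset (bdry G (ball G u v r))))
  · exact (integrable_const (1 : ℝ)).indicator hKm
  · filter_upwards [ae_good (ι := Sym2 V) hG] with ω hω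
    apply Finset.sup'_le
    intro A hA
    rw [mem_powerset] at hA
    by_cases hωK : ω ∈ K
    · rw [Set.indicator_of_mem hωK]
      exact chi_diff_le G ω _ _ _
    · rw [Set.indicator_of_notMem hωK, chi_eq]
      have hnot : ω s(u, v) < msg G' b r B u false ω + msg G' b r (B.erase u) v false ω ∨
          msg G' b r B u true ω + msg G' b r (B.erase u) v true ω < ω s(u, v) := by
        by_contra hcon
        rw [not_or, not_lt, not_lt] at hcon
        exact hωK hcon
      rcases Nat.eq_zero_or_pos r with h0 | hpos
      · exfalso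
        rw [h0] at hnot
        simp only [msg] at hnot
        have h3 := hω s(u, v)
        simp only [Bool.false_eq_true, if_false, if_true] at hnot
        rcases hnot with h4 | h4 <;> linarith
      · obtain ⟨r', hr'⟩ : ∃ r', r = r' + 1 := ⟨r - 1, by omega⟩
        have hF := hFAR V G hconn u v r A huv hA
        have hF0 := hFAR V G hconn u v r ∅ huv (empty_subset _)
        have huA : u ∉ A := by
          have h5 := hF.1
          rw [hr'] at h5
          exact h5.1
        have hvA : v ∉ A := by
          have h5 := hF.2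
          rw [hr'] at h5
          exact h5.1
        have hT1 := hTHR V G ω B u v huv huB hvB
        have hT2 := hTHR V G ω (B \ A) u v huv (mem_sdiff.2 ⟨huB, huA⟩) (mem_sdiff.2 ⟨hvB, hvA⟩)
        have hse : (B \ A).erase u = B.erase u \ A := by
          ext x
          simp only [mem_erase, mem_sdiff]
          tauto
        rw [hse] at hT2
        have b1 := hBND V G' ω b A hω r B u huB hF.1
        have b2 := hBND V G' ω b A hω r (B.erase u) v hvB' hF.2
        have c1 := hBND V G' ω b ∅ hω r B u huB hF0.1
        have c2 := hBND V G' ω b ∅ hω r (B.erase u) v hvB' hF0.2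
        rw [sdiff_empty] at c1 c2
        rw [hT1, hT2]
        rcases hnot with h4 | h4
        · constructor
          · intro h5
            exfalso
            linarith [c1.1, c2.1]
          · intro h5
            exfalso
            linarith [b1.1, b2.1]
        · constructor
          · intro _
            linarith [b1.2, b2.2]
          · intro _
            linarith [c1.2, c2.2]

end Pool.Agent.H670.MW.RHO
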